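import Mathlib
import Pool.Agent.Y585.IndGalvin

/-!
# Under GCH every regular uncountable cardinal carries a hereditarily non-Galvin complete filter

GCH (indeed `2 ^ c ≤ κ` for all `c < κ`) gives, for every regular uncountable cardinal `κ`, a proper
`κ`-complete filter `F` on `κ` containing all clubs, and a family of `2 ^ κ` members of `F` such that
the complement of the intersection of any `κ` of them is again in `F`. So no proper filter
extending `F` has the Galvin property.
-/

set_option autoImplicit false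

namespace Pool.Agent.Results.MP_45cf3b_lc.HereditarilyNonGalvin

open Cardinal Set

universe u

/-- The filter `F` on the cardinal `κ` has the Galvin property: for every sequence of `κ⁺`
members of `F` there is a set of `κ` many indices with intersection in `F`. -/
def Galvin (κ : Cardinal.{u}) (F : Filter κ.ord.ToType) : Prop :=
  ∀ A : (Order.succ κ).ord.ToType → Set κ.ord.ToType, (∀ i, A i ∈ F) →
    ∃ I : Set (Order.succ κ).ord.ToType, #I = κ ∧ ⋂ i ∈ I, A i ∈ F

/-- The filter `F` on the cardinal `κ` is `κ`-complete: the intersection of fewer than `κ`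
members of `F` is a member of `F`. -/
def Complete (κ : Cardinal.{u}) (F : Filter κ.ord.ToType) : Prop :=
  ∀ S : Set (Set κ.ord.ToType), #S < κ → (∀ s ∈ S, s ∈ F) → ⋂₀ S ∈ F

/-- `κ` carries a proper `κ`-complete filter `F` which contains all clubs, none of whose proper
extensions (in particular not `F` itself) has the Galvin property, and which has `2 ^ κ` members
any `κ` of which have intersection with complement in `F`. -/
def CarriesNonGalvin (κ : Cardinal.{u}) : Prop :=
  ∃ F : Filter κ.ord.ToType, F.NeBot ∧ Complete κ F ∧ (∀ C, IsClub C → C ∈ F) ∧ ¬ Galvin κ F ∧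
    (∀ G : Filter κ.ord.ToType, G.NeBot → F.sets ⊆ G.sets → ¬ Galvin κ G) ∧
    ∃ A : Set κ.ord.ToType → Set κ.ord.ToType, (∀ Y, A Y ∈ F) ∧
      ∀ I : Set (Set κ.ord.ToType), #I = κ → (⋂ Y ∈ I, A Y)ᶜ ∈ F

theorem result (κ : Cardinal.{u}) (hκ : κ.IsRegular) (hω : ℵ₀ < κ)
    (h : (∀ μ : Cardinal.{u}, ℵ₀ ≤ μ → (2 : Cardinal.{u}) ^ μ = Order.succ μ) ∨
      ∀ c < κ, (2 : Cardinal.{u}) ^ c ≤ κ) : CarriesNonGalvin κ := by
  have h2 : ∀ c < κ, (2 : Cardinal.{u}) ^ c ≤ κ := by
    rcases h with gch | h
    · intro c hc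
      rcases le_or_gt ℵ₀ c with h | h
      · rw [gch c h]
        exact Order.succ_le_of_lt hc
      · exact ((power_lt_aleph0 (natCast_lt_aleph0 (n := 2)) h).trans hω).le
    · exact h
  obtain ⟨F, h1, h3, h4, A, hA, hA2⟩ := Pool.Agent.Y585.IG.main hκ hω h2
  have key : ∀ G : Filter κ.ord.ToType, G.NeBot → F.sets ⊆ G.sets → ¬ Galvin κ G := by
    intro G hG hFG hGal
    have hle : #((Order.succ κ).ord.ToType) ≤ #(Set κ.ord.ToType) := by
      rw [mk_set, Cardinal.mk_toType, card_ord, Cardinal.mk_toType, card_ord]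
      exact Order.succ_le_of_lt (cantor κ)
    obtain ⟨e⟩ := hle
    obtain ⟨I, hI, hI2⟩ := hGal (fun i => A (e i)) (fun i => hFG (hA _))
    have h5 : (⋂ Y ∈ e '' I, A Y)ᶜ ∈ G := hFG (hA2 _ (by
      rw [mk_image_eq e.injective, hI]))
    have h6 : ⋂ Y ∈ e '' I, A Y = ⋂ i ∈ I, A (e i) := by rw [biInter_image]
    rw [h6] at h5
    have h7 := Filter.inter_mem hI2 h5
    rw [inter_compl_self] at h7
    exact hG.ne (Filter.empty_mem_iff_bot.1 h7)
  exact ⟨F, h1, h3, h4, key F h1 (le_refl _), key, A, hA, fun I hI => hA2 I hI.ge⟩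

end Pool.Agent.Results.MP_45cf3b_lc.HereditarilyNonGalvin
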